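import Pool.Agent.H87.QP.Targets

/-!
# Local autocorrelations of Liouville's function (MP_c59857_nt), row QPL: the theorem
-/

set_option autoImplicit false

namespace Pool.Agent.H49.QP

open Finset Pool.Agent.H18.MR Pool.Agent.H93.DE Pool.Agent.H6.N4D Pool.Agent.H93
  Pool.Agent.H93.ES Pool.Agent.H28.NW Pool.Agent.H87.QP

private lemma qpl_small (X : Wn) (A : ℕ) (hA : 1 ≤ A) :
    wlg X (fun n => if n < A then 1 else 0) ≤ 1 + Real.log A := by
  have h1 := sum_Icc_le 1 A le_rfl hA
  unfold wlg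
  calc ∑ n ∈ Icc X.lo X.hi, (if n < A then (1 : ℝ) else 0) / n
      = ∑ n ∈ (Icc X.lo X.hi).filter (fun n => n < A), (1 : ℝ) / n := by
        rw [sum_filter]
        refine sum_congr rfl fun n _ => ?_
        split_ifs <;> simp
    _ ≤ ∑ n ∈ Icc 1 A, (1 : ℝ) / n := by
        refine sum_le_sum_of_subset_of_nonneg ?_ fun n _ _ => by positivity
        intro n hn
        rw [mem_filter, mem_Icc] at hn
        rw [mem_Icc]
        have := X.one_le
        omega
    _ ≤ 1 + Real.log A := by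
        have h2 : Real.log ((1 : ℕ) : ℝ) = 0 := by simp
        rw [h2] at h1
        have h3 : (1 : ℝ) / ((1 : ℕ) : ℝ) = 1 := by simp
        rw [h3] at h1
        linarith

/-- one window of the short length -/
private lemma qpl_one {H B R m₀ : ℕ} {η : ℝ} (hη : 0 < η)
    (hM : ∀ (m n : ℕ) (f : ℕ → ℝ), m₀ ≤ m → 2 ^ (m + 1) * H ≤ n → (∀ t, f t = 1 ∨ f t = -1) →
      ((oct m).card : ℝ) / 2 ≤
        (((oct m).filter (fun q => 1 - η ≤ mx H (fun h => |rh f (2 ^ (m + B)) n (q * h)|))).card : ℝ) →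
      ∃ (b : ℕ → ℂ) (β : ℕ → ℝ), (∀ r, ‖b r‖ ≤ 1) ∧
        (∑ x ∈ Ioc n (n + 2 ^ (m + B)), ‖(f x : ℂ) - ∑ r ∈ range R, b r * ee (β r * x)‖ ^ 2) /
          ((2 ^ (m + B) : ℕ) : ℝ) ≤ 100 * η)
    (m n : ℕ) (lam : ℕ → ℝ) (hm : m₀ ≤ m) (hpm : ∀ t, lam t = 1 ∨ lam t = -1)
    (hc : 0 < (oct m).card) :
    ∃ (b : ℕ → ℂ) (β : ℕ → ℝ), (∀ r, ‖b r‖ ≤ 1) ∧
      (∑ x ∈ Ioc n (n + 2 ^ (m + B)), ‖(lam x : ℂ) - ∑ r ∈ range R, b r * ee (β r * x)‖ ^ 2) /
        ((2 ^ (m + B) : ℕ) : ℝ) ≤ 100 * η + (if n < 2 ^ (m + 1) * H then 1 else 0) +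
          2 / (η * (oct m).card) *
            ∑ q ∈ oct m, (1 - mx H (fun h => |rh lam (2 ^ (m + B)) n (q * h)|)) := by
  have hl : ∀ t, |lam t| ≤ 1 := by
    intro t
    rcases hpm t with h | h <;> rw [h] <;> simp
  have hcR : (0 : ℝ) < (oct m).card := by exact_mod_cast hc
  have hmx : ∀ q, mx H (fun h => |rh lam (2 ^ (m + B)) n (q * h)|) ≤ 1 := fun q =>
    mx_le_of_nonneg zero_le_one fun i _ _ => abs_rh_le hl _ _ _
  have hs0 : 0 ≤ ∑ q ∈ oct m, (1 - mx H (fun h => |rh lam (2 ^ (m + B)) n (q * h)|)) :=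
    sum_nonneg fun q _ => by have := hmx q; linarith
  have hs1 : 0 ≤ 2 / (η * (oct m).card) *
      ∑ q ∈ oct m, (1 - mx H (fun h => |rh lam (2 ^ (m + B)) n (q * h)|)) :=
    mul_nonneg (by positivity) hs0
  have hzero : (∑ x ∈ Ioc n (n + 2 ^ (m + B)),
      ‖(lam x : ℂ) - ∑ r ∈ range R, (0 : ℂ) * ee ((0 : ℝ) * x)‖ ^ 2) /
        ((2 ^ (m + B) : ℕ) : ℝ) = 1 := by
    have h1 : ∀ x ∈ Ioc n (n + 2 ^ (m + B)),
        ‖(lam x : ℂ) - ∑ r ∈ range R, (0 : ℂ) * ee ((0 : ℝ) * x)‖ ^ 2 = (1 : ℝ) := by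
      intro x _
      have h2 : ∑ r ∈ range R, (0 : ℂ) * ee ((0 : ℝ) * x) = 0 := by simp
      rw [h2, sub_zero, Complex.norm_real]
      rcases hpm x with h | h <;> rw [h] <;> simp
    rw [sum_congr rfl h1, sum_const, Nat.card_Ioc, nsmul_eq_mul, mul_one]
    have h3 : n + 2 ^ (m + B) - n = 2 ^ (m + B) := Nat.add_sub_cancel_left n _
    rw [h3]
    exact div_self (by positivity)
  by_cases hn : n < 2 ^ (m + 1) * H
  · refine ⟨fun _ => 0, fun _ => 0, fun _ => by simp, ?_⟩
    rw [if_pos hn]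
    refine hzero.le.trans ?_
    linarith
  · rw [if_neg hn]
    by_cases hf : ((oct m).card : ℝ) / 2 ≤
        (((oct m).filter (fun q => 1 - η ≤
          mx H (fun h => |rh lam (2 ^ (m + B)) n (q * h)|))).card : ℝ)
    · obtain ⟨b, β, hb, he⟩ := hM m n lam hm (not_lt.1 hn) hpm hf
      exact ⟨b, β, hb, by linarith⟩
    · refine ⟨fun _ => 0, fun _ => 0, fun _ => by simp, ?_⟩
      refine hzero.le.trans ?_
      have h4 : η * ((oct m).card - (((oct m).filter (fun q => 1 - η ≤
          mx H (fun h => |rh lam (2 ^ (m + B)) n (q * h)|))).card : ℝ)) ≤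
          ∑ q ∈ oct m, (1 - mx H (fun h => |rh lam (2 ^ (m + B)) n (q * h)|)) := by
        have h5 : η * ((oct m).card - (((oct m).filter (fun q => 1 - η ≤
            mx H (fun h => |rh lam (2 ^ (m + B)) n (q * h)|))).card : ℝ)) =
            ∑ q ∈ oct m, η * (1 - (if 1 - η ≤
              mx H (fun h => |rh lam (2 ^ (m + B)) n (q * h)|) then (1 : ℝ) else 0)) := by
          rw [← mul_sum, sum_sub_distrib, sum_boole]
          simp
        rw [h5]
        refine sum_le_sum fun q _ => ?_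
        have h6 := hmx q
        split_ifs with h7
        · linarith
        · push Not at h7
          linarith
      have h8 : η * ((oct m).card / 2) ≤
          ∑ q ∈ oct m, (1 - mx H (fun h => |rh lam (2 ^ (m + B)) n (q * h)|)) := by
        refine le_trans ?_ h4
        push Not at hf
        exact mul_le_mul_of_nonneg_left (by linarith) hη.le
      have h9 : (1 : ℝ) ≤ 2 / (η * (oct m).card) *
          ∑ q ∈ oct m, (1 - mx H (fun h => |rh lam (2 ^ (m + B)) n (q * h)|)) := by
        calc (1 : ℝ) = 2 / (η * (oct m).card) * (η * ((oct m).card / 2)) := by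
              field_simp
          _ ≤ _ := mul_le_mul_of_nonneg_left h8 (by positivity)
      linarith

theorem pf_QPL (hG : Pool.Agent.H3.GW.W_GH0) (hM : T_MOD) (hS : T_SEL) (hL : T_MLN)
    (hP : Pool.Agent.H93.DE.T_PIL) : T_QPL := by
  obtain ⟨c0, K0, hc0, hK0, hG⟩ := hG
  obtain ⟨c1, hc1def⟩ : ∃ c1 : ℝ, c1 = min c0 1 := ⟨_, rfl⟩
  have hc1 : 0 < c1 := by rw [hc1def]; exact lt_min hc0 one_pos
  have hc11 : c1 ≤ 1 := by rw [hc1def]; exact min_le_right _ _
  have hc10 : c1 ≤ c0 := by rw [hc1def]; exact min_le_left _ _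
  obtain ⟨η, hηdef⟩ : ∃ η : ℝ, η = c1 / 400 := ⟨_, rfl⟩
  have hη : 0 < η := by rw [hηdef]; positivity
  have hη1 : η ≤ 1 := by rw [hηdef]; linarith
  obtain ⟨d, hddef⟩ : ∃ d : ℝ, d = η * c1 / 200 := ⟨_, rfl⟩
  have hd : 0 < d := by rw [hddef]; positivity
  have hd1 : d ≤ 1 := by
    rw [hddef]
    nlinarith
  refine ⟨d, ⌈80 / d⌉₊, hd, fun H => ?_⟩
  rcases Nat.eq_zero_or_pos H with h0 | hH
  · subst h0
    refine ⟨0, fun X L lam _ _ _ => ?_⟩
    have h1 : ∀ F : ℕ → ℝ, mx 0 F = 0 := by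
      intro F
      unfold mx
      exact Real.iSup_of_isEmpty _
    have h2 : wlg X (fun n => mx 0 (fun h => |rh lam L n h|)) = 0 := by
      simp only [h1]
      unfold wlg
      simp
    rw [h2]
    exact mul_nonneg (by linarith) X.L_nonneg
  · obtain ⟨B, R, m0, hM⟩ := hM H η hH hη hη1
    obtain ⟨H0, hG⟩ := hG R
    obtain ⟨cP, mP, hcP, hP⟩ := hP
    obtain ⟨Ls, m1, X0, hLs, hS⟩ := hS H B (m0 + mP + H0 + 1) (2 * d) hH (by positivity)
    obtain ⟨A, hAdef⟩ : ∃ A : ℕ, A = 2 ^ (m1 + 1) * H := ⟨_, rfl⟩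
    have hA1 : 1 ≤ A := by
      rw [hAdef]
      exact Nat.mul_pos (by positivity) hH
    have hlogA : 0 ≤ Real.log A := Real.log_nonneg (by exact_mod_cast hA1)
    obtain ⟨Z, hZdef⟩ : ∃ Z : ℝ, Z = |X0| + 80 / d + K0 * (m1 + B) +
      (4 / c1) * (2 + Real.log A) + 1 := ⟨_, rfl⟩
    have t1 : 0 ≤ |X0| := abs_nonneg _
    have t2 : 0 < 80 / d := by positivity
    have t3 : (0 : ℝ) ≤ K0 * (m1 + B) := by positivity
    have t4 : 0 ≤ (4 / c1) * (2 + Real.log A) := by positivity
    refine ⟨max ⌈Real.exp Z⌉₊ ⌈32 * Ls / d⌉₊, fun X L lam hL0 hKL hlam => ?_⟩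
    have hLe : Real.exp Z ≤ L :=
      (Nat.le_ceil _).trans (by exact_mod_cast (le_max_left _ _).trans hL0)
    have hLs2 : 32 * Ls / d ≤ L :=
      (Nat.le_ceil _).trans (by exact_mod_cast (le_max_right _ _).trans hL0)
    have hLpos : (0 : ℝ) < L := (Real.exp_pos _).trans_le hLe
    have hlogL : Z ≤ Real.log L := (Real.le_log_iff_exp_le hLpos).2 hLe
    have hlogL0 : 0 ≤ Real.log L := by linarith
    have hK : 80 / d ≤ (⌈80 / d⌉₊ : ℝ) := Nat.le_ceil _
    have hKL2 : 80 / d * Real.log L ≤ X.L := by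
      refine le_trans ?_ hKL
      exact mul_le_mul_of_nonneg_right hK hlogL0
    have h80 : 80 ≤ 80 / d := by
      rw [le_div_iff₀ hd]
      nlinarith
    have hXZ : Z ≤ X.L := by nlinarith
    have hlogX : Real.log L ≤ d / 80 * X.L := by
      have h1 : d / 80 * (80 / d * Real.log L) ≤ d / 80 * X.L :=
        mul_le_mul_of_nonneg_left hKL2 (by positivity)
      have h2 : d / 80 * (80 / d * Real.log L) = Real.log L := by field_simp
      linarith
    have hX80 : 80 / d ≤ X.L := by linarith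
    have hXd : 80 ≤ d * X.L := by
      have h1 := mul_le_mul_of_nonneg_left hX80 hd.le
      have h2 : d * (80 / d) = 80 := by field_simp
      linarith
    have hX1 : 1 ≤ X.L := by linarith
    have hl : ∀ t, |lam t| ≤ 1 := by
      intro t
      rcases hlam.pm t with h | h <;> rw [h] <;> simp
    by_contra hcon
    push Not at hcon
    -- the short length
    have hLs1 : (1 : ℝ) ≤ Ls := by exact_mod_cast hLs
    have hLsL : Ls ≤ L := by
      have h1 : (Ls : ℝ) ≤ 32 * Ls / d := by
        rw [le_div_iff₀ hd]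
        nlinarith
      exact_mod_cast h1.trans hLs2
    have hmln := hL lam H 1 L Ls X hLs hLsL hl
    simp only [one_mul] at hmln
    have hq : 2 * (Ls : ℝ) / L * (1 + X.L) ≤ d / 8 * X.L := by
      have h1 : 2 * (Ls : ℝ) / L ≤ d / 16 := by
        rw [div_le_iff₀ hLpos]
        rw [div_le_iff₀ hd] at hLs2
        linarith
      calc 2 * (Ls : ℝ) / L * (1 + X.L) ≤ d / 16 * (2 * X.L) :=
            mul_le_mul h1 (by linarith) (by linarith) (by positivity)
        _ = d / 8 * X.L := by ring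
    have hsub : wlg X (fun n => 1 - mx H (fun h => |rh lam Ls n h|)) ≤ 2 * d * X.L := by
      rw [wlg_sub]
      have h1 := wlg_one_le X
      nlinarith
    obtain ⟨m, hm1, hm2, hsum⟩ := hS X lam (by have := le_abs_self X0; linarith) hlam hsub
    have hmR : (0 : ℝ) < m := by
      have : 0 < m := by omega
      exact_mod_cast this
    have hcard : 0 < (oct m).card := by
      have h1 := hP m (by omega)
      have h2 : 0 < cP * 2 ^ m / m := by positivity
      exact_mod_cast h2.trans_le h1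
    have hcR : (0 : ℝ) < (oct m).card := by exact_mod_cast hcard
    have hpt := fun n : ℕ => qpl_one hη hM m n lam (by omega) hlam.pm hcard
    choose b β hb he using hpt
    have hlen : H0 ≤ 2 ^ (m + B) := by
      have h1 : m + B < 2 ^ (m + B) := Nat.lt_two_pow_self
      omega
    have hlog2 : K0 * Real.log ((2 ^ (m + B) : ℕ) : ℝ) ≤ X.L := by
      push_cast
      rw [Real.log_pow]
      have h1 : Real.log 2 ≤ 1 := by have := Real.log_two_lt_d9; linarith
      have h1' : 0 ≤ Real.log 2 := Real.log_nonneg (by norm_num)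
      have h2 : (m : ℝ) ≤ m1 := by exact_mod_cast hm2
      have h3 : ((m + B : ℕ) : ℝ) * Real.log 2 ≤ m1 + B := by
        push_cast
        have h4 : (0 : ℝ) ≤ m + B := by positivity
        nlinarith
      have h5 : (K0 : ℝ) * (((m + B : ℕ) : ℝ) * Real.log 2) ≤ K0 * (m1 + B) :=
        mul_le_mul_of_nonneg_left h3 (by positivity)
      linarith
    have hlow := hG X (2 ^ (m + B)) lam hlen hlog2 hlam b β hb
    have hup : wlg X (fun n => (∑ x ∈ Ioc n (n + 2 ^ (m + B)),
        ‖(lam x : ℂ) - ∑ r ∈ range R, b n r * ee (β n r * x)‖ ^ 2) / ((2 ^ (m + B) : ℕ) : ℝ)) ≤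
        100 * η * (1 + X.L) + (1 + Real.log A) + 24 * d / η * X.L := by
      calc wlg X (fun n => (∑ x ∈ Ioc n (n + 2 ^ (m + B)),
          ‖(lam x : ℂ) - ∑ r ∈ range R, b n r * ee (β n r * x)‖ ^ 2) / ((2 ^ (m + B) : ℕ) : ℝ))
          ≤ wlg X (fun n => 100 * η + (if n < 2 ^ (m + 1) * H then 1 else 0) +
            2 / (η * (oct m).card) *
              ∑ q ∈ oct m, (1 - mx H (fun h => |rh lam (2 ^ (m + B)) n (q * h)|))) :=
            wlg_mono fun n _ => he n
        _ = 100 * η * wlg X (fun _ => 1) +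
              wlg X (fun n => if n < 2 ^ (m + 1) * H then 1 else 0) +
              2 / (η * (oct m).card) * ∑ q ∈ oct m,
                wlg X (fun n => 1 - mx H (fun h => |rh lam (2 ^ (m + B)) n (q * h)|)) := by
            rw [wlg_add, wlg_add, wlg_const, wlg_mul, wlg_sum]
        _ ≤ 100 * η * (1 + X.L) + (1 + Real.log A) +
              2 / (η * (oct m).card) * (6 * (2 * d) * (oct m).card * X.L) := by
            have h1 : wlg X (fun n => if n < 2 ^ (m + 1) * H then 1 else 0) ≤ 1 + Real.log A := by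
              refine le_trans (wlg_mono fun n _ => ?_) (qpl_small X A hA1)
              have h2 : 2 ^ (m + 1) * H ≤ A := by
                rw [hAdef]
                exact Nat.mul_le_mul_right _ (Nat.pow_le_pow_right (by norm_num) (by omega))
              split_ifs with h3 h4
              · exact le_rfl
              · omega
              · norm_num
              · exact le_rfl
            have h5 : 100 * η * wlg X (fun _ => 1) ≤ 100 * η * (1 + X.L) :=
              mul_le_mul_of_nonneg_left (wlg_one_le X) (by positivity)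
            have h6 : 2 / (η * (oct m).card) * ∑ q ∈ oct m,
                wlg X (fun n => 1 - mx H (fun h => |rh lam (2 ^ (m + B)) n (q * h)|)) ≤
                2 / (η * (oct m).card) * (6 * (2 * d) * (oct m).card * X.L) :=
              mul_le_mul_of_nonneg_left hsum (by positivity)
            linarith
        _ = 100 * η * (1 + X.L) + (1 + Real.log A) + 24 * d / η * X.L := by
            have h7 : 2 / (η * (oct m).card) * (6 * (2 * d) * (oct m).card * X.L) =
                24 * d / η * X.L := by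
              field_simp
              ring
            rw [h7]
    have h8 : 24 * d / η = 24 * c1 / 200 := by
      rw [hddef]
      field_simp
    have h9 : 100 * η = c1 / 4 := by rw [hηdef]; ring
    rw [h8, h9] at hup
    have h10 : (4 / c1) * (2 + Real.log A) ≤ X.L := by linarith
    have h11 : 4 * (2 + Real.log A) ≤ c1 * X.L := by
      have h12 := mul_le_mul_of_nonneg_left h10 hc1.le
      have h13 : c1 * (4 / c1 * (2 + Real.log A)) = 4 * (2 + Real.log A) := by field_simp
      linarith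
    have h14 : c1 * X.L ≤ c0 * X.L := mul_le_mul_of_nonneg_right hc10 X.L_nonneg
    have h15 : 0 < c1 * X.L := by positivity
    have h16 := hlow.trans_le hup
    nlinarith

end Pool.Agent.H49.QP
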